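import Mathlib

/-! Integers with base-4 digits 0, 1, -1 and multipliers into them. -/

namespace Pool.Agent.H98.LvdP

/-- `L` is the set of integers of the form `∑_{i ≤ r} ε_i 4^i` with every `ε_i ∈ {-1, 0, 1}`. -/
def L : Set ℤ :=
  {n | ∃ r : ℕ, ∃ ε : ℕ → ℤ, (∀ i, ε i = -1 ∨ ε i = 0 ∨ ε i = 1) ∧
    n = ∑ i ∈ Finset.range (r + 1), ε i * 4 ^ i}

/-- `m` is a multiplier for `k`: `m` is a positive integer with `m ∈ L` and `k m ∈ L`. -/
def IsMultiplier (k m : ℤ) : Prop := 0 < m ∧ m ∈ L ∧ k * m ∈ L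

/-- Integers with `t` base-4 digits, all in `{-1, 0, 1}` (positions `0, …, t-1`). -/
def Dig : ℕ → ℤ → Prop
  | 0, n => n = 0
  | t + 1, n => ∃ ε m : ℤ, (ε = -1 ∨ ε = 0 ∨ ε = 1) ∧ Dig t m ∧ n = ε + 4 * m

lemma Dig_iff (t : ℕ) (n : ℤ) :
    Dig t n ↔ ∃ ε : ℕ → ℤ, (∀ i, ε i = -1 ∨ ε i = 0 ∨ ε i = 1) ∧
      n = ∑ i ∈ Finset.range t, ε i * 4 ^ i := by
  induction t generalizing n with
  | zero =>
    simp only [Dig, Finset.range_zero, Finset.sum_empty]
    constructor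
    · intro h
      exact ⟨fun _ => 0, fun _ => by simp, h⟩
    · rintro ⟨_, _, h⟩
      exact h
  | succ t ih =>
    simp only [Dig]
    constructor
    · rintro ⟨e, m, he, hm, rfl⟩
      obtain ⟨ε, hε, rfl⟩ := (ih m).1 hm
      refine ⟨fun i => if i = 0 then e else ε (i - 1), ?_, ?_⟩
      · intro i
        by_cases hi : i = 0
        · simp [hi, he]
        · simp only [hi, if_false]
          exact hε _
      · rw [Finset.sum_range_succ']
        simp only [Nat.add_eq_zero_iff, one_ne_zero, and_false, if_false, Nat.add_sub_cancel,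
          if_true, pow_zero, mul_one]
        rw [Finset.mul_sum, add_comm]
        congr 1
        apply Finset.sum_congr rfl
        intro i _
        ring
    · rintro ⟨ε, hε, rfl⟩
      refine ⟨ε 0, ∑ i ∈ Finset.range t, ε (i + 1) * 4 ^ i, hε 0, (ih _).2 ⟨fun i => ε (i + 1),
        fun i => hε _, rfl⟩, ?_⟩
      rw [Finset.sum_range_succ', Finset.mul_sum, add_comm]
      simp only [pow_zero, mul_one]
      congr 1
      apply Finset.sum_congr rfl
      intro i _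
      ring

lemma mem_L_iff (n : ℤ) : n ∈ L ↔ ∃ t, Dig t n := by
  constructor
  · rintro ⟨r, ε, hε, h⟩
    exact ⟨r + 1, (Dig_iff _ _).2 ⟨ε, hε, h⟩⟩
  · rintro ⟨t, h⟩
    cases t with
    | zero =>
      simp only [Dig] at h
      exact ⟨0, fun _ => 0, fun _ => by simp, by simp [h]⟩
    | succ t =>
      obtain ⟨ε, hε, h⟩ := (Dig_iff _ _).1 h
      exact ⟨t, ε, hε, h⟩

lemma Dig_zero (t : ℕ) : Dig t 0 := by
  induction t with
  | zero => simp [Dig]
  | succ t ih => exact ⟨0, 0, by simp, ih, by simp⟩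

lemma Dig_succ_of (t : ℕ) {n : ℤ} (h : Dig t n) : Dig (t + 1) n := by
  induction t generalizing n with
  | zero =>
    simp only [Dig] at h
    subst h
    exact Dig_zero 1
  | succ t ih =>
    obtain ⟨ε, m, hε, hm, rfl⟩ := h
    exact ⟨ε, m, hε, ih hm, rfl⟩

lemma Dig_mono {s t : ℕ} (hst : s ≤ t) {n : ℤ} (h : Dig s n) : Dig t n := by
  induction hst with
  | refl => exact h
  | step _ ih => exact Dig_succ_of _ ih

lemma Dig_neg {t : ℕ} {n : ℤ} (h : Dig t n) : Dig t (-n) := by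
  induction t generalizing n with
  | zero =>
    simp only [Dig] at h ⊢
    omega
  | succ t ih =>
    obtain ⟨ε, m, hε, hm, rfl⟩ := h
    exact ⟨-ε, -m, by omega, ih hm, by ring⟩

lemma Dig_bound {t : ℕ} {n : ℤ} (h : Dig t n) : 3 * n ≤ 4 ^ t - 1 ∧ -(4 ^ t - 1) ≤ 3 * n := by
  induction t generalizing n with
  | zero =>
    simp only [Dig] at h
    subst h
    simp
  | succ t ih =>
    obtain ⟨ε, m, hε, hm, rfl⟩ := h
    have := ih hm
    rw [pow_succ]
    omega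

/-- concatenation of digit strings -/
lemma Dig_append {s t : ℕ} {a b : ℤ} (ha : Dig s a) (hb : Dig t b) : Dig (s + t) (a + 4 ^ s * b) := by
  induction s generalizing a with
  | zero =>
    simp only [Dig] at ha
    subst ha
    simpa using hb
  | succ s ih =>
    obtain ⟨ε, m, hε, hm, rfl⟩ := ha
    have := ih hm
    rw [show s + 1 + t = (s + t) + 1 by ring]
    refine ⟨ε, m + 4 ^ s * b, hε, this, by ring⟩

/-- splitting of digit strings -/
lemma Dig_split {s t : ℕ} {n : ℤ} (h : Dig (s + t) n) :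
    ∃ a b, Dig s a ∧ Dig t b ∧ n = a + 4 ^ s * b := by
  induction s generalizing n with
  | zero =>
    refine ⟨0, n, Dig_zero 0, by simpa using h, by simp⟩
  | succ s ih =>
    rw [show s + 1 + t = (s + t) + 1 by ring] at h
    obtain ⟨ε, m, hε, hm, rfl⟩ := h
    obtain ⟨a, b, ha, hb, rfl⟩ := ih hm
    exact ⟨ε + 4 * a, b, ⟨ε, a, hε, ha, rfl⟩, hb, by ring⟩

lemma L_split (s : ℕ) {n : ℤ} (h : n ∈ L) : ∃ a b, Dig s a ∧ b ∈ L ∧ n = a + 4 ^ s * b := by
  obtain ⟨t, ht⟩ := (mem_L_iff n).1 h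
  obtain ⟨a, b, ha, hb, rfl⟩ := Dig_split (Dig_mono (show t ≤ s + t by omega) ht)
  exact ⟨a, b, ha, (mem_L_iff b).2 ⟨t, hb⟩, rfl⟩

lemma L_append {s : ℕ} {a b : ℤ} (ha : Dig s a) (hb : b ∈ L) : a + 4 ^ s * b ∈ L := by
  obtain ⟨t, ht⟩ := (mem_L_iff b).1 hb
  exact (mem_L_iff _).2 ⟨s + t, Dig_append ha ht⟩

lemma L_zero : (0 : ℤ) ∈ L := (mem_L_iff 0).2 ⟨0, Dig_zero 0⟩

lemma L_neg {n : ℤ} (h : n ∈ L) : -n ∈ L := by
  obtain ⟨t, ht⟩ := (mem_L_iff n).1 h
  exact (mem_L_iff _).2 ⟨t, Dig_neg ht⟩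

/-- last digit of an element of `L` -/
lemma L_uncons {n : ℤ} (h : n ∈ L) :
    ∃ ε m : ℤ, (ε = -1 ∨ ε = 0 ∨ ε = 1) ∧ m ∈ L ∧ n = ε + 4 * m := by
  obtain ⟨t, ht⟩ := (mem_L_iff n).1 h
  obtain ⟨ε, m, hε, hm, rfl⟩ := Dig_succ_of t ht
  exact ⟨ε, m, hε, (mem_L_iff m).2 ⟨t, hm⟩, rfl⟩

/-- repunits `u_j = (4^j - 1)/3 = 1 + 4 + … + 4^(j-1)` -/
def u : ℕ → ℤ
  | 0 => 0
  | j + 1 => 1 + 4 * u j

lemma three_u (j : ℕ) : 3 * u j = 4 ^ j - 1 := by
  induction j with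
  | zero => simp [u]
  | succ j ih => simp only [u]; rw [pow_succ]; omega

lemma Dig_u (j : ℕ) : Dig j (u j) := by
  induction j with
  | zero => simp [Dig, u]
  | succ j ih => exact ⟨1, u j, by simp, ih, rfl⟩

lemma u_nonneg (j : ℕ) : 0 ≤ u j := by
  have := three_u j
  have h : (1 : ℤ) ≤ 4 ^ j := one_le_pow₀ (by norm_num)
  omega

lemma u_succ_top (j : ℕ) : u (j + 1) = u j + 4 ^ j := by
  have h1 := three_u j
  have h2 := three_u (j + 1)
  rw [pow_succ] at h2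
  omega

end Pool.Agent.H98.LvdP
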