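import Pool.Agent.H98.LvdP.Basic

/-! Fibres of `(a, b) ↦ a + k b` modulo powers of four. -/

namespace Pool.Agent.H98.LvdP

open Finset

/-- the `2^n` integers with `n` base-4 digits, all in `{0, 1}` -/
def Lz : ℕ → Finset ℤ
  | 0 => {0}
  | n + 1 => Lz n ∪ (Lz n).image (fun a => a + 4 ^ n)

lemma Lz_bound {n : ℕ} {a : ℤ} (h : a ∈ Lz n) : 0 ≤ a ∧ 3 * a ≤ 4 ^ n - 1 := by
  induction n generalizing a with
  | zero => simp only [Lz, mem_singleton] at h; subst h; simp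
  | succ n ih =>
    simp only [Lz, mem_union, mem_image] at h
    have h4 : (1 : ℤ) ≤ 4 ^ n := one_le_pow₀ (by norm_num)
    rw [pow_succ]
    rcases h with h | ⟨b, hb, rfl⟩
    · have := ih h; omega
    · have := ih hb; omega

lemma Lz_sum_succ {A : Type*} [AddCommMonoid A] (n : ℕ) (g : ℤ → A) :
    ∑ a ∈ Lz (n + 1), g a = ∑ a ∈ Lz n, (g a + g (a + 4 ^ n)) := by
  have hdisj : Disjoint (Lz n) ((Lz n).image (fun a => a + 4 ^ n)) := by
    rw [Finset.disjoint_left]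
    intro x hx hx'
    obtain ⟨b, hb, rfl⟩ := mem_image.1 hx'
    have h1 := Lz_bound hx
    have h2 := Lz_bound hb
    have h4 : (1 : ℤ) ≤ 4 ^ n := one_le_pow₀ (by norm_num)
    omega
  rw [Lz, sum_union hdisj, sum_image (by intro x _ y _ h; simpa using h), ← sum_add_distrib]

lemma Lz_card (n : ℕ) : (Lz n).card = 2 ^ n := by
  induction n with
  | zero => simp [Lz]
  | succ n ih =>
    have := Lz_sum_succ n (fun _ => (1 : ℕ))
    simp only [sum_const, smul_eq_mul, mul_one] at this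
    rw [this, ih, pow_succ]

lemma Lz_sum_add {A : Type*} [AddCommMonoid A] (n i : ℕ) (g : ℤ → A) :
    ∑ a ∈ Lz (n + i), g a = ∑ p ∈ Lz n, ∑ q ∈ Lz i, g (p + 4 ^ n * q) := by
  induction i generalizing g with
  | zero => simp [Lz]
  | succ i ih =>
    rw [← Nat.add_assoc, Lz_sum_succ, sum_add_distrib, ih, ih (fun a => g (a + 4 ^ (n + i)))]
    rw [← sum_add_distrib]
    apply sum_congr rfl
    intro p _
    rw [Lz_sum_succ, sum_add_distrib]
    congr 1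
    apply sum_congr rfl
    intro q _
    congr 1
    rw [pow_add]
    ring

lemma Dig_of_Lz_sub {n : ℕ} {a b : ℤ} (ha : a ∈ Lz n) (hb : b ∈ Lz n) : Dig n (a - b) := by
  induction n generalizing a b with
  | zero =>
    simp only [Lz, mem_singleton] at ha hb
    subst ha hb
    simp [Dig]
  | succ n ih =>
    have key : ∀ {x : ℤ}, x ∈ Lz (n + 1) → ∃ y ∈ Lz n, ∃ e : ℤ, (e = 0 ∨ e = 1) ∧
        x = y + 4 ^ n * e := by
      intro x hx
      simp only [Lz, mem_union, mem_image] at hx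
      rcases hx with h | ⟨y, hy, rfl⟩
      · exact ⟨x, h, 0, by simp, by simp⟩
      · exact ⟨y, hy, 1, by simp, by simp⟩
    obtain ⟨y, hy, e, he, rfl⟩ := key ha
    obtain ⟨y', hy', e', he', rfl⟩ := key hb
    have h1 : Dig 1 (e - e') := ⟨e - e', 0, by omega, by simp [Dig], by ring⟩
    have := Dig_append (ih hy hy') h1
    convert this using 1
    ring

/-- indicator of divisibility by `4^n` -/
def ind (n : ℕ) (x : ℤ) : ℤ := if (4 : ℤ) ^ n ∣ x then 1 else 0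

lemma ind_zero (x : ℤ) : ind 0 x = 1 := by simp [ind]

lemma ind_add_mul (n : ℕ) (x t : ℤ) : ind n (x + 4 ^ n * t) = ind n x := by
  unfold ind
  have : ((4 : ℤ) ^ n ∣ x + 4 ^ n * t) ↔ ((4 : ℤ) ^ n ∣ x) :=
    dvd_add_left (dvd_mul_right _ _)
  simp only [this]

lemma ind_refine (n : ℕ) (x : ℤ) :
    ind n x = ind (n + 1) x + ind (n + 1) (x - 4 ^ n) + ind (n + 1) (x - 2 * 4 ^ n)
      + ind (n + 1) (x - 3 * 4 ^ n) := by
  have h4 : (4 : ℤ) ^ n ≠ 0 := by positivity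
  unfold ind
  by_cases h : (4 : ℤ) ^ n ∣ x
  · obtain ⟨t, rfl⟩ := h
    have e0 : ((4 : ℤ) ^ (n + 1) ∣ 4 ^ n * t) ↔ 4 ∣ t := by
      rw [pow_succ]; exact mul_dvd_mul_iff_left h4
    have e1 : ((4 : ℤ) ^ (n + 1) ∣ 4 ^ n * t - 4 ^ n) ↔ 4 ∣ t - 1 := by
      rw [pow_succ, show (4 : ℤ) ^ n * t - 4 ^ n = 4 ^ n * (t - 1) by ring]
      exact mul_dvd_mul_iff_left h4
    have e2 : ((4 : ℤ) ^ (n + 1) ∣ 4 ^ n * t - 2 * 4 ^ n) ↔ 4 ∣ t - 2 := by
      rw [pow_succ, show (4 : ℤ) ^ n * t - 2 * 4 ^ n = 4 ^ n * (t - 2) by ring]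
      exact mul_dvd_mul_iff_left h4
    have e3 : ((4 : ℤ) ^ (n + 1) ∣ 4 ^ n * t - 3 * 4 ^ n) ↔ 4 ∣ t - 3 := by
      rw [pow_succ, show (4 : ℤ) ^ n * t - 3 * 4 ^ n = 4 ^ n * (t - 3) by ring]
      exact mul_dvd_mul_iff_left h4
    simp only [e0, e1, e2, e3, dvd_mul_right, if_true]
    have : t % 4 = 0 ∨ t % 4 = 1 ∨ t % 4 = 2 ∨ t % 4 = 3 := by omega
    rcases this with h | h | h | h
    · rw [if_pos (by omega), if_neg (by omega), if_neg (by omega), if_neg (by omega)]; norm_num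
    · rw [if_neg (by omega), if_pos (by omega), if_neg (by omega), if_neg (by omega)]; norm_num
    · rw [if_neg (by omega), if_neg (by omega), if_pos (by omega), if_neg (by omega)]; norm_num
    · rw [if_neg (by omega), if_neg (by omega), if_neg (by omega), if_pos (by omega)]; norm_num
  · have hd : (4 : ℤ) ^ n ∣ 4 ^ (n + 1) := pow_dvd_pow _ (by omega)
    have n0 : ¬ (4 : ℤ) ^ (n + 1) ∣ x := fun h' => h (hd.trans h')
    have n1 : ¬ (4 : ℤ) ^ (n + 1) ∣ x - 4 ^ n := fun h' =>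
      h ((dvd_sub_left (dvd_refl _)).1 (hd.trans h'))
    have n2 : ¬ (4 : ℤ) ^ (n + 1) ∣ x - 2 * 4 ^ n := fun h' =>
      h ((dvd_sub_left (dvd_mul_left _ _)).1 (hd.trans h'))
    have n3 : ¬ (4 : ℤ) ^ (n + 1) ∣ x - 3 * 4 ^ n := fun h' =>
      h ((dvd_sub_left (dvd_mul_left _ _)).1 (hd.trans h'))
    rw [if_neg h, if_neg n0, if_neg n1, if_neg n2, if_neg n3]; norm_num

/-- the number of pairs `(a, b)` of `n`-digit `0,1`-numbers with `a + k b ≡ y (mod 4^n)` -/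
def fib (k : ℤ) (n : ℕ) (y : ℤ) : ℤ := ∑ a ∈ Lz n, ∑ b ∈ Lz n, ind n (a + k * b - y)

end Pool.Agent.H98.LvdP
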