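import Pool.Agent.H98.LvdP.Growth

/-! The growth lemma: a maximal fibre whose size is not divisible by `2^i` grows in `i` steps. -/

namespace Pool.Agent.H98.LvdP

open Finset Function

lemma anti_kill {g : ℤ → ℤ} {j l : ℕ} (hl : l ≤ j) {d : ℤ} (hd : Odd d)
    (hg : Antiperiodic g (2 * 4 ^ j)) (h : ∀ x, g x + g (x - d * 4 ^ l) = 0) : ∀ x, g x = 0 := by
  obtain ⟨d', rfl⟩ := hd
  have h1 : Antiperiodic g ((2 * d' + 1) * 4 ^ l) := by
    intro x
    have := h (x + (2 * d' + 1) * 4 ^ l)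
    rw [add_sub_cancel_right] at this
    linarith
  have h2 := h1.nat_even_mul_periodic (4 ^ (j - l))
  have h3 := hg.int_odd_mul_antiperiodic d'
  intro x
  have e2 := h2 x
  have e3 := h3 x
  have e : ((4 ^ (j - l) : ℕ) : ℤ) * (2 * ((2 * d' + 1) * 4 ^ l)) =
      d' * (2 * (2 * 4 ^ j)) + 2 * 4 ^ j := by
    have : (4 : ℤ) ^ j = 4 ^ (j - l) * 4 ^ l := by rw [← pow_add]; congr 1; omega
    rw [this]
    push_cast
    ring
  rw [e] at e2
  simp only [Int.cast_id] at e3
  omega

lemma anti_kill_sum {g : ℤ → ℤ} {j : ℕ} {d : ℤ} (hd : Odd d)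
    (hg : Antiperiodic g (2 * 4 ^ j)) : ∀ l ≤ j + 1,
    (∀ x, ∑ a ∈ Lz l, g (x - d * a) = 0) → ∀ x, g x = 0 := by
  intro l
  induction l generalizing g with
  | zero =>
    intro _ h x
    have := h x
    simpa [Lz] using this
  | succ l ih =>
    intro hl h
    have hh : Antiperiodic (fun x => g x + g (x - d * 4 ^ l)) (2 * 4 ^ j) := by
      intro x
      have h1 := hg x
      have h2 := hg (x - d * 4 ^ l)
      have e : x + 2 * 4 ^ j - d * 4 ^ l = x - d * 4 ^ l + 2 * 4 ^ j := by ring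
      simp only [e, h1, h2]
      ring
    have key := ih hh (by omega) (by
      intro x
      have := h x
      rw [Lz_sum_succ] at this
      rw [← this]
      refine sum_congr rfl fun a _ => ?_
      congr 2
      ring)
    exact anti_kill (by omega) hd hg key

lemma anti_kill_two {g : ℤ → ℤ} {j : ℕ} {k : ℤ} (hk : Odd k)
    (hg : Antiperiodic g (2 * 4 ^ j))
    (h : ∀ x, ∑ a ∈ Lz (j + 1), ∑ b ∈ Lz (j + 1), g (x - a - k * b) = 0) : ∀ x, g x = 0 := by
  have h1 : Antiperiodic (fun x => ∑ b ∈ Lz (j + 1), g (x - k * b)) (2 * 4 ^ j) := by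
    intro x
    simp only
    rw [← sum_neg_distrib]
    refine sum_congr rfl fun b _ => ?_
    rw [← hg (x - k * b)]
    congr 1
    ring
  have h2 := anti_kill_sum (d := 1) odd_one h1 (j + 1) le_rfl (by
    intro x
    rw [← h x]
    refine sum_congr rfl fun a _ => sum_congr rfl fun b _ => ?_
    congr 1
    ring)
  exact anti_kill_sum hk hg (j + 1) le_rfl h2

/-- balancedness of a non-growing maximal fibre -/
lemma cls_balanced {k : ℤ} (hk : Odd k) {n i : ℕ} {m y : ℤ}
    (h : ∀ z, fib k (n + i) z ≤ m) (hy : m ≤ fib k n y) (j : ℕ) (hj : j < i) (x : ℤ) :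
    cls k n y (j + 1) (x + 2 * 4 ^ j) = cls k n y (j + 1) x := by
  have hc := fib_const h hy
  have hg : Antiperiodic (fun x => cls k n y (j + 1) x - cls k n y (j + 1) (x + 2 * 4 ^ j))
      (2 * 4 ^ j) := by
    intro x
    have e : cls k n y (j + 1) (x + 2 * 4 ^ j + 2 * 4 ^ j) = cls k n y (j + 1) x := by
      rw [← cls_per k n y (j + 1) x 1]
      congr 1
      rw [pow_succ]
      ring
    simp only [e]
    ring
  have := anti_kill_two hk hg (by
    intro x
    simp only [sum_sub_distrib]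
    have e1 := fib_split k n y (j + 1) x
    have e2 := fib_split k n y (j + 1) (x + 2 * 4 ^ j)
    rw [hc (j + 1) (by omega) x] at e1
    rw [hc (j + 1) (by omega) (x + 2 * 4 ^ j)] at e2
    rw [← e1]
    have e3 : ∑ a ∈ Lz (j + 1), ∑ b ∈ Lz (j + 1), cls k n y (j + 1) (x - a - k * b + 2 * 4 ^ j)
        = m := by
      rw [e2]
      refine sum_congr rfl fun a _ => sum_congr rfl fun b _ => ?_
      congr 1
      ring
    rw [e3, sub_self])
  have hx := this x
  omega

lemma cls_dvd {k : ℤ} (hk : Odd k) {n i : ℕ} {m y : ℤ}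
    (h : ∀ z, fib k (n + i) z ≤ m) (hy : m ≤ fib k n y) :
    ∀ t ≤ i, ∀ x, (2 : ℤ) ^ t ∣ cls k n y (i - t) x := by
  intro t
  induction t with
  | zero => intro _ x; simp
  | succ t ih =>
    intro ht x
    have hprev := ih (by omega)
    have e : i - t = (i - (t + 1)) + 1 := by omega
    rw [e] at hprev
    set j := i - (t + 1) with hj
    have hb := cls_balanced hk h hy j (by omega)
    rw [cls_refine]
    have e1 := hb x
    have e2 := hb (x + 4 ^ j)
    rw [show x + 4 ^ j + 2 * 4 ^ j = x + 3 * 4 ^ j by ring] at e2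
    rw [e1, e2]
    obtain ⟨u, hu⟩ := hprev x
    obtain ⟨v, hv⟩ := hprev (x + 4 ^ j)
    rw [hu, hv]
    refine ⟨u + v, ?_⟩
    rw [pow_succ]
    ring

/-- growth of the largest fibre -/
lemma fib_grow {k : ℤ} (hk : Odd k) {n i : ℕ} {m : ℤ} (hi : ¬ (2 : ℤ) ^ i ∣ m)
    (h : ∃ y, m ≤ fib k n y) : ∃ y, m + 1 ≤ fib k (n + i) y := by
  by_contra hcon
  push Not at hcon
  obtain ⟨y, hy⟩ := h
  have hle : ∀ z, fib k (n + i) z ≤ m := fun z => by have := hcon z; omega
  have := cls_dvd hk hle hy i le_rfl 0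
  rw [Nat.sub_self, cls_zero] at this
  have h0 := fib_const hle hy 0 (by omega) 0
  simp only [mul_zero, add_zero] at h0
  rw [h0] at this
  exact hi this

end Pool.Agent.H98.LvdP
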