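import Pool.Agent.H98.LvdP.Fiber

/-! The largest fibre grows. -/

namespace Pool.Agent.H98.LvdP

open Finset

/-- the members of the fibre over `y` whose next `j` digits are those of `x` -/
def cls (k : ℤ) (n : ℕ) (y : ℤ) (j : ℕ) (x : ℤ) : ℤ :=
  ∑ a ∈ Lz n, ∑ b ∈ Lz n, ind (n + j) (a + k * b - y - 4 ^ n * x)

lemma cls_zero (k : ℤ) (n : ℕ) (y x : ℤ) : cls k n y 0 x = fib k n y := by
  unfold cls fib
  refine sum_congr rfl fun a _ => sum_congr rfl fun b _ => ?_
  have := ind_add_mul n (a + k * b - y) (-x)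
  rw [← this, Nat.add_zero]
  congr 1
  ring

lemma cls_per (k : ℤ) (n : ℕ) (y : ℤ) (j : ℕ) (x t : ℤ) :
    cls k n y j (x + 4 ^ j * t) = cls k n y j x := by
  unfold cls
  refine sum_congr rfl fun a _ => sum_congr rfl fun b _ => ?_
  have := ind_add_mul (n + j) (a + k * b - y - 4 ^ n * x) (-t)
  rw [← this]
  congr 1
  rw [pow_add]
  ring

lemma cls_refine (k : ℤ) (n : ℕ) (y : ℤ) (j : ℕ) (x : ℤ) :
    cls k n y j x = cls k n y (j + 1) x + cls k n y (j + 1) (x + 4 ^ j)
      + cls k n y (j + 1) (x + 2 * 4 ^ j) + cls k n y (j + 1) (x + 3 * 4 ^ j) := by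
  unfold cls
  rw [← sum_add_distrib, ← sum_add_distrib, ← sum_add_distrib]
  refine sum_congr rfl fun a _ => ?_
  rw [← sum_add_distrib, ← sum_add_distrib, ← sum_add_distrib]
  refine sum_congr rfl fun b _ => ?_
  rw [ind_refine (n + j)]
  have e : n + (j + 1) = n + j + 1 := by omega
  rw [e]
  congr 1
  · congr 1
    · congr 1
      congr 1
      rw [pow_add]; ring
    · congr 1
      rw [pow_add]; ring
  · congr 1
    rw [pow_add]; ring

lemma fib_split (k : ℤ) (n : ℕ) (y : ℤ) (j : ℕ) (x : ℤ) :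
    fib k (n + j) (y + 4 ^ n * x) = ∑ a ∈ Lz j, ∑ b ∈ Lz j, cls k n y j (x - a - k * b) := by
  unfold fib cls
  rw [Lz_sum_add]
  have h1 : ∀ p ∈ Lz n, ∑ q ∈ Lz j, ∑ b ∈ Lz (n + j),
      ind (n + j) (p + 4 ^ n * q + k * b - (y + 4 ^ n * x)) =
      ∑ q ∈ Lz j, ∑ b' ∈ Lz j, ∑ b ∈ Lz n,
        ind (n + j) (p + k * b - y - 4 ^ n * (x - q - k * b')) := by
    intro p _
    refine sum_congr rfl fun q _ => ?_
    rw [Lz_sum_add, sum_comm]
    refine sum_congr rfl fun b' _ => sum_congr rfl fun b _ => ?_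
    congr 1
    ring
  rw [sum_congr rfl h1, sum_comm]
  refine sum_congr rfl fun q _ => ?_
  rw [sum_comm]

lemma fib_nonneg (k : ℤ) (n : ℕ) (y : ℤ) : 0 ≤ fib k n y := by
  unfold fib
  refine sum_nonneg fun a _ => sum_nonneg fun b _ => ?_
  unfold ind
  split_ifs <;> norm_num

/-- the average of the fibre sizes over the four lifts -/
lemma fib_avg (k : ℤ) (n : ℕ) (y x : ℤ) :
    fib k (n + 1) (y + 4 ^ n * x) + fib k (n + 1) (y + 4 ^ n * (x + 1))
      + fib k (n + 1) (y + 4 ^ n * (x + 2)) + fib k (n + 1) (y + 4 ^ n * (x + 3))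
      = 4 * fib k n y := by
  rw [fib_split, fib_split, fib_split, fib_split]
  rw [← sum_add_distrib, ← sum_add_distrib, ← sum_add_distrib]
  have h : ∀ a ∈ Lz 1, (∑ b ∈ Lz 1, cls k n y 1 (x - a - k * b)
      + ∑ b ∈ Lz 1, cls k n y 1 (x + 1 - a - k * b)
      + ∑ b ∈ Lz 1, cls k n y 1 (x + 2 - a - k * b)
      + ∑ b ∈ Lz 1, cls k n y 1 (x + 3 - a - k * b)) = ∑ b ∈ Lz 1, fib k n y := by
    intro a _
    rw [← sum_add_distrib, ← sum_add_distrib, ← sum_add_distrib]
    refine sum_congr rfl fun b _ => ?_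
    have := cls_refine k n y 0 (x - a - k * b)
    rw [cls_zero] at this
    rw [this]
    simp only [pow_zero, mul_one, Nat.zero_add]
    congr 1
    · congr 1
      · congr 1
        congr 1
        ring
      · congr 1
        ring
    · congr 1
      ring
  rw [sum_congr rfl h]
  simp only [sum_const, Lz_card, pow_one, smul_smul]
  norm_num

lemma fib_down {k : ℤ} {n : ℕ} {m : ℤ} (h : ∀ z, fib k (n + 1) z ≤ m) :
    ∀ z, fib k n z ≤ m := by
  intro z
  have := fib_avg k n z 0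
  have h0 := h (z + 4 ^ n * 0)
  have h1 := h (z + 4 ^ n * (0 + 1))
  have h2 := h (z + 4 ^ n * (0 + 2))
  have h3 := h (z + 4 ^ n * (0 + 3))
  linarith

lemma fib_down_all {k : ℤ} {n i : ℕ} {m : ℤ} (h : ∀ z, fib k (n + i) z ≤ m) :
    ∀ j ≤ i, ∀ z, fib k (n + j) z ≤ m := by
  induction i with
  | zero =>
    intro j hj
    have : j = 0 := by omega
    subst this
    exact h
  | succ i ih =>
    intro j hj
    rcases Nat.lt_or_ge i j with hlt | hge
    · have : j = i + 1 := by omega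
      subst this
      exact h
    · exact ih (fib_down (n := n + i) h) j hge

lemma fib_up {k : ℤ} {n : ℕ} {m : ℤ} (h : ∃ y, m ≤ fib k n y) : ∃ y, m ≤ fib k (n + 1) y := by
  by_contra hcon
  push Not at hcon
  obtain ⟨y, hy⟩ := h
  have := fib_down (k := k) (n := n) (m := m - 1) (fun z => by have := hcon z; omega) y
  omega

/-- if a maximal fibre does not grow, all its descendants have the same size -/
lemma fib_const {k : ℤ} {n i : ℕ} {m y : ℤ} (h : ∀ z, fib k (n + i) z ≤ m)
    (hy : m ≤ fib k n y) : ∀ j ≤ i, ∀ x, fib k (n + j) (y + 4 ^ n * x) = m := by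
  have hall := fib_down_all h
  intro j
  induction j with
  | zero =>
    intro _ x
    have h1 := fib_split k n y 0 x
    rw [h1]
    simp only [Lz, sum_singleton]
    rw [cls_zero]
    have := hall 0 (by omega) y
    simp only [Nat.add_zero] at this
    omega
  | succ j ih =>
    intro hj x
    have hprev := ih (by omega)
    have hle := hall (j + 1) hj
    -- write x = x0 + 4^j u
    have havg := fib_avg k (n + j) (y + 4 ^ n * x) 0
    rw [hprev x] at havg
    have h1 := hle (y + 4 ^ n * x + 4 ^ (n + j) * (0 + 1))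
    have h2 := hle (y + 4 ^ n * x + 4 ^ (n + j) * (0 + 2))
    have h3 := hle (y + 4 ^ n * x + 4 ^ (n + j) * (0 + 3))
    have h0 := hle (y + 4 ^ n * x + 4 ^ (n + j) * 0)
    rw [← Nat.add_assoc] at h0 h1 h2 h3
    have : fib k (n + j + 1) (y + 4 ^ n * x + 4 ^ (n + j) * 0) = m := by linarith
    rw [← Nat.add_assoc]
    simpa using this

end Pool.Agent.H98.LvdP
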