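import Pool.Agent.H98.LvdP.Basic

/-! The least multiplier of `2 * 4^t + 5`. -/

namespace Pool.Agent.H98.LvdP

/-- `m ∈ L` and `2 m ∈ L` force `m = 0` -/
lemma two_zero : ∀ (N : ℕ) {m : ℤ}, m.natAbs ≤ N → m ∈ L → 2 * m ∈ L → m = 0 := by
  intro N
  induction N with
  | zero =>
    intro m h _ _
    omega
  | succ N ih =>
    intro m hN h1 h2
    obtain ⟨ε, m', hε, hm', rfl⟩ := L_uncons h1
    obtain ⟨δ, n', hδ, hn', h⟩ := L_uncons h2
    have he : ε = 0 := by omega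
    have hn : n' = 2 * m' := by omega
    subst he
    subst hn
    by_cases h0 : m' = 0
    · omega
    · have := ih (by omega) hm' hn'
      omega

/-- `m ∈ L` and `2 m + 1 ∈ L` force `m = u_j` or `m = u_j - 4^j` -/
lemma two_one : ∀ (N : ℕ) {m : ℤ}, m.natAbs ≤ N → m ∈ L → 2 * m + 1 ∈ L →
    ∃ j, m = u j ∨ m = u j - 4 ^ j := by
  intro N
  induction N with
  | zero =>
    intro m h _ _
    exact ⟨0, Or.inl (by simp only [u]; omega)⟩
  | succ N ih =>
    intro m hN h1 h2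
    obtain ⟨ε, m', hε, hm', rfl⟩ := L_uncons h1
    obtain ⟨δ, n', hδ, hn', h⟩ := L_uncons h2
    rcases hε with rfl | rfl | rfl
    · -- ε = -1
      have hn : n' = 2 * m' := by omega
      subst hn
      have := two_zero _ le_rfl hm' hn'
      subst this
      exact ⟨0, Or.inr (by simp [u])⟩
    · have hn : n' = 2 * m' := by omega
      subst hn
      have := two_zero _ le_rfl hm' hn'
      subst this
      exact ⟨0, Or.inl (by simp [u])⟩
    · have hn : n' = 2 * m' + 1 := by omega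
      subst hn
      obtain ⟨j, hj | hj⟩ := ih (by omega) hm' hn'
      · exact ⟨j + 1, Or.inl (by simp only [u]; omega)⟩
      · refine ⟨j + 1, Or.inr ?_⟩
        simp only [u]
        rw [pow_succ]
        omega

/-- positive `m ∈ L` with `2 m + 1 ∈ L` or `2 m + 2 ∈ L` is a repunit -/
lemma two_pos {m c : ℤ} (hm : 0 < m) (h1 : m ∈ L) (hc : c = 1 ∨ c = 2) (h2 : 2 * m + c ∈ L) :
    ∃ j, m = u (j + 1) := by
  have key : ∀ {m : ℤ}, 0 < m → (∃ j, m = u j ∨ m = u j - 4 ^ j) → ∃ j, m = u (j + 1) := by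
    intro m hm ⟨j, hj⟩
    have h3 := three_u j
    have h4 : (1 : ℤ) ≤ 4 ^ j := one_le_pow₀ (by norm_num)
    cases j with
    | zero =>
      simp only [u] at hj
      omega
    | succ j =>
      rcases hj with hj | hj
      · exact ⟨j, hj⟩
      · omega
  rcases hc with rfl | rfl
  · exact key hm (two_one _ le_rfl h1 h2)
  · obtain ⟨ε, m', hε, hm', rfl⟩ := L_uncons h1
    obtain ⟨δ, n', hδ, hn', h⟩ := L_uncons h2
    rcases hε with rfl | rfl | rfl
    · have hn : n' = 2 * m' := by omega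
      subst hn
      have := two_zero _ le_rfl hm' hn'
      omega
    · omega
    · have hn : n' = 2 * m' + 1 := by omega
      subst hn
      by_cases h0 : m' = 0
      · subst h0
        exact ⟨0, by simp [u]⟩
      · obtain ⟨j, hj⟩ := key (by omega) (two_one _ le_rfl hm' hn')
        exact ⟨j + 1, by rw [hj]; simp only [u]⟩

/-- The relation `5 m ≡ ℓ (mod 4^t)`, `m` and `ℓ` with `t` digits, with quotient `c`. -/
def F (t : ℕ) (m c : ℤ) : Prop := Dig t m ∧ ∃ ℓ, Dig t ℓ ∧ 5 * m = ℓ + 4 ^ t * c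

lemma F_zero {m c : ℤ} (h : F 0 m c) : m = 0 ∧ c = 0 := by
  obtain ⟨h1, ℓ, h2, h3⟩ := h
  simp only [Dig] at h1 h2
  simp at h3
  omega

/-- top digit recursion for `F` -/
lemma F_succ : ∀ (t : ℕ) {m c : ℤ}, F (t + 1) m c →
    (c = -1 ∨ c = 0 ∨ c = 1) ∧ ∃ m' c', F t m' c' ∧ m = m' + 4 ^ t * c ∧
      (c' = -1 ∨ c' = 0 ∨ c' = 1) ∧ c + c' ≤ 1 ∧ -1 ≤ c + c' := by
  intro t
  induction t with
  | zero =>
    rintro m c ⟨h1, ℓ, h2, h3⟩
    obtain ⟨ε, m', hε, hm', rfl⟩ := h1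
    obtain ⟨δ, n', hδ, hn', rfl⟩ := h2
    simp only [Dig] at hm' hn'
    subst hm' hn'
    simp at h3
    have hc : c = ε := by omega
    subst hc
    refine ⟨hε, 0, 0, ⟨by simp [Dig], 0, by simp [Dig], by simp⟩, by ring, by simp, by omega,
      by omega⟩
  | succ t ih =>
    rintro m c ⟨h1, ℓ, h2, h3⟩
    obtain ⟨a, b, ha, hb, rfl⟩ := Dig_split (s := t + 1) (t := 1) h1
    obtain ⟨a', b', ha', hb', rfl⟩ := Dig_split (s := t + 1) (t := 1) h2
    obtain ⟨ε, m', hε, hm', rfl⟩ := hb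
    obtain ⟨δ, n', hδ, hn', rfl⟩ := hb'
    simp only [Dig] at hm' hn'
    subst hm' hn'
    have hF : F (t + 1) a (δ + 4 * c - 5 * ε) := by
      refine ⟨ha, a', ha', ?_⟩
      rw [pow_succ _ (t + 1)] at h3
      linarith
    obtain ⟨hc', -⟩ := ih hF
    have hc : c = ε := by omega
    subst hc
    exact ⟨hε, a, δ + 4 * c - 5 * c, hF, by ring, hc', by omega, by omega⟩

lemma F_bound (t : ℕ) {m c : ℤ} (h : F t m c) :
    15 * m ≤ 4 * 4 ^ t ∧ (c ≤ 0 → 15 * m ≤ 4 ^ t) := by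
  induction t generalizing m c with
  | zero =>
    obtain ⟨rfl, rfl⟩ := F_zero h
    simp
  | succ t ih =>
    obtain ⟨hc, m', c', hF, rfl, hc', h1, h2⟩ := F_succ t h
    obtain ⟨h3, h4⟩ := ih hF
    have h5 : (1 : ℤ) ≤ 4 ^ t := one_le_pow₀ (by norm_num)
    rw [pow_succ]
    rcases hc with rfl | rfl | rfl
    · constructor
      · linarith
      · intro _; linarith
    · constructor
      · linarith
      · intro _; linarith
    · have := h4 (by omega)
      constructor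
      · linarith
      · intro h; omega

/-- The second relation: in addition `2 m + 1 + 5 u_s ≡ ℓ (mod 4^s)` with quotient `d`. -/
def G (s : ℕ) (m c d : ℤ) : Prop :=
  F s m c ∧ ∃ ℓ, Dig s ℓ ∧ 2 * m + 1 + 5 * u s = ℓ + 4 ^ s * d

lemma G_zero {m c d : ℤ} (h : G 0 m c d) : d = 1 := by
  obtain ⟨h0, ℓ, h2, h3⟩ := h
  obtain ⟨rfl, rfl⟩ := F_zero h0
  simp only [Dig, u] at h2 h3
  simp at h3
  omega

lemma G_succ : ∀ (t : ℕ) {m c d : ℤ}, G (t + 1) m c d →
    (d = 1 ∨ d = 2) ∧ ∃ m' c' d', G t m' c' d' ∧ m = m' + 4 ^ t * c ∧ (d' = 1 ∨ d' = 2) ∧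
      (c = -1 → d = 1) ∧ (c = 0 → d' = 2) ∧ (c = 1 → d = 2) := by
  intro t
  induction t with
  | zero =>
    rintro m c d ⟨hF, ℓ, h2, h3⟩
    obtain ⟨hc, m', c', hF', rfl, hc', h4, h5⟩ := F_succ 0 hF
    obtain ⟨rfl, rfl⟩ := F_zero hF'
    obtain ⟨δ, n', hδ, hn', rfl⟩ := h2
    simp only [Dig] at hn'
    subst hn'
    simp [u] at h3
    refine ⟨by omega, 0, 0, 1, ⟨hF', 0, by simp [Dig], by simp [u]⟩, by ring, by simp, by omega,
      by omega, by omega⟩
  | succ t ih =>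
    rintro m c d ⟨hF, ℓ, h2, h3⟩
    obtain ⟨hc, m', c', hF', rfl, hc', h4, h5⟩ := F_succ (t + 1) hF
    obtain ⟨a', b', ha', hb', rfl⟩ := Dig_split (s := t + 1) (t := 1) h2
    obtain ⟨δ, n', hδ, hn', rfl⟩ := hb'
    simp only [Dig] at hn'
    subst hn'
    have hG : G (t + 1) m' c' (δ + 4 * d - 2 * c - 5) := by
      refine ⟨hF', a', ha', ?_⟩
      rw [pow_succ _ (t + 1), u_succ_top (t + 1)] at h3
      linarith
    obtain ⟨hd', -⟩ := ih hG
    refine ⟨by omega, m', c', _, hG, rfl, hd', by omega, by omega, by omega⟩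

lemma G_pos (s : ℕ) {m c d : ℤ} (h : G (s + 1) m c d) (hc : 0 ≤ c) : 1 ≤ m := by
  induction s generalizing m c d with
  | zero =>
    obtain ⟨hF, -⟩ := id h
    obtain ⟨hd, m', c', d', hG, rfl, hd', h1, h2, h3⟩ := G_succ 0 h
    have := G_zero hG
    obtain ⟨hc3, -⟩ := F_succ 0 hF
    obtain ⟨h0, -⟩ := F_zero hG.1
    subst h0
    have hc1 : c = 1 := by omega
    subst hc1
    simp
  | succ s ih =>
    obtain ⟨hF, -⟩ := id h
    obtain ⟨hd, m', c', d', hG, rfl, hd', h1, h2, h3⟩ := G_succ (s + 1) h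
    obtain ⟨hc3, -⟩ := F_succ (s + 1) hF
    have hb := Dig_bound hG.1.1
    have h5 : (1 : ℤ) ≤ 4 ^ (s + 1) := one_le_pow₀ (by norm_num)
    rcases hc3 with rfl | rfl | rfl
    · omega
    · have hd2 := h2 rfl
      subst hd2
      -- top digit of m' is nonnegative
      obtain ⟨-, m'', c'', d'', hG', -, -, h1', -, -⟩ := G_succ s hG
      obtain ⟨hc3', -⟩ := F_succ s hG.1
      have : 0 ≤ c' := by omega
      have := ih hG this
      simpa using this
    · omega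

/-- the claimed least multiplier of `2 * 4^(s+3) + 5` -/
def M (s : ℕ) : ℤ := 4 ^ (s + 3) * u (s + 2) + 4 ^ (s + 2) - 4 ^ (s + 1) + 1

lemma lower (s : ℕ) {m : ℤ} (h : IsMultiplier (2 * 4 ^ (s + 3) + 5) m) : M s ≤ m := by
  obtain ⟨hpos, hm, hkm⟩ := h
  obtain ⟨m0, m1, hm0, hm1, rfl⟩ := L_split (s + 3) hm
  set q : ℤ := 4 ^ (s + 3) with hq
  have hq64 : (64 : ℤ) ≤ q := by
    have : (1 : ℤ) ≤ 4 ^ s := one_le_pow₀ (by norm_num)
    rw [hq, pow_succ, pow_succ, pow_succ]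
    omega
  have hp2 : (4 : ℤ) ^ (s + 2) * 4 = q := by rw [hq, pow_succ _ (s + 2)]
  have hp1 : (4 : ℤ) ^ (s + 1) * 16 = q := by rw [hq, pow_succ _ (s + 2), pow_succ _ (s + 1)]; ring
  obtain ⟨hb0, hb0'⟩ := Dig_bound hm0
  rw [← hq] at hb0 hb0'
  have hM : 12 * M s = q * q - 4 * q + 12 * 4 ^ (s + 2) - 12 * 4 ^ (s + 1) + 12 := by
    have h3 := three_u (s + 2)
    have : 12 * M s = 4 * q * (3 * u (s + 2)) + 12 * 4 ^ (s + 2) - 12 * 4 ^ (s + 1) + 12 := by
      unfold M; ring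
    rw [this, h3]
    have : 4 * q * (4 ^ (s + 2) - 1) = q * (4 ^ (s + 2) * 4) - 4 * q := by ring
    rw [this, hp2]
  obtain ⟨ℓ0, N1, hℓ0, hN1, hk1⟩ := L_split (s + 3) hkm
  rw [← hq] at hk1
  obtain ⟨hbℓ0, hbℓ0'⟩ := Dig_bound hℓ0
  rw [← hq] at hbℓ0 hbℓ0'
  -- c0
  obtain ⟨c0, hc0⟩ : ∃ c0, 5 * m0 = ℓ0 + q * c0 := by
    refine ⟨N1 - (2 * m0 + 5 * m1 + 2 * q * m1), ?_⟩
    linarith
  have hN1' : N1 = c0 + 2 * m0 + 5 * m1 + 2 * q * m1 := by
    have : q * N1 = q * (c0 + 2 * m0 + 5 * m1 + 2 * q * m1) := by linarith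
    exact mul_left_cancel₀ (by omega) this
  have hF : F (s + 3) m0 c0 := ⟨hm0, ℓ0, hℓ0, by rw [← hq]; exact hc0⟩
  obtain ⟨hFb, hFb2⟩ := F_bound _ hF
  rw [← hq] at hFb hFb2
  obtain ⟨hc03, m', c', hF', hm', hc'3, hcc1, hcc2⟩ := F_succ _ hF
  have hc0a : c0 ≤ 1 := by omega
  have hc0b : -1 ≤ c0 := by omega
  -- m1 ≥ 0
  have hm1nn : 0 ≤ m1 := by
    by_contra hcon
    have : q * m1 ≤ q * (-1) := mul_le_mul_of_nonneg_left (by omega) (by omega)
    linarith
  -- large m1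
  by_cases hbig : q ≤ 3 * m1 + 1
  · -- m ≥ q(q-1)/3 - (q-1)/3
    have h1 : q * (q - 1) ≤ q * (3 * m1) := mul_le_mul_of_nonneg_left (by omega) (by omega)
    nlinarith
  have hm1b : 3 * m1 ≤ q - 2 := by omega
  obtain ⟨ℓ1, N2, hℓ1, hN2, hk2⟩ := L_split (s + 3) hN1
  rw [← hq] at hk2
  obtain ⟨hbℓ1, hbℓ1'⟩ := Dig_bound hℓ1
  rw [← hq] at hbℓ1 hbℓ1'
  obtain ⟨c1, hc1⟩ : ∃ c1, 2 * m0 + 5 * m1 + c0 = ℓ1 + q * c1 := by
    refine ⟨N2 - 2 * m1, ?_⟩
    linarith
  have hN2' : N2 = 2 * m1 + c1 := by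
    have : q * N2 = q * (2 * m1 + c1) := by linarith
    exact mul_left_cancel₀ (by omega) this
  rw [hN2'] at hN2
  have hc1u : c1 ≤ 2 := by
    by_contra hcon
    have : q * 3 ≤ q * c1 := mul_le_mul_of_nonneg_left (by omega) (by omega)
    linarith
  -- m1 = 0 impossible
  have hm1ne : m1 ≠ 0 := by
    intro h0
    subst h0
    have hc1b : c1 ≤ 1 ∧ -1 ≤ c1 := by
      constructor
      · by_contra hcon
        have : q * 2 ≤ q * c1 := mul_le_mul_of_nonneg_left (by omega) (by omega)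
        linarith
      · by_contra hcon
        have : q * c1 ≤ q * (-2) := mul_le_mul_of_nonneg_left (by omega) (by omega)
        linarith
    have hm0pos : 0 < m0 := by simpa using hpos
    have hm0L : m0 ∈ L := (mem_L_iff _).2 ⟨_, hm0⟩
    have hN1L : 2 * m0 + c0 ∈ L := by
      have : N1 = 2 * m0 + c0 := by rw [hN1']; ring
      rw [← this]; exact hN1
    rcases hc03 with h | h | h
    · subst h; linarith
    · subst h
      have := two_zero _ le_rfl hm0L (by simpa using hN1L)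
      omega
    · subst h
      obtain ⟨j, hj⟩ := two_pos hm0pos hm0L (Or.inl rfl) hN1L
      -- last digits
      have hF5 : 5 * m0 = ℓ0 + q := by linarith
      obtain ⟨δ, n1, hδ, hn1, e1⟩ := hℓ0
      obtain ⟨δ', n2, hδ', hn2, e2⟩ := hn1
      have hq16 : q = 16 * 4 ^ (s + 1) := by linarith
      cases j with
      | zero =>
        simp [u] at hj
        omega
      | succ j =>
        simp only [u] at hj
        omega
  have hm1pos : 0 < m1 := by omega
  -- c1 ≥ 1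
  have hc1pos : 0 < c1 := by
    by_contra hcon
    rcases lt_or_eq_of_le (not_lt.1 hcon) with hneg | hz
    · have : q * c1 ≤ q * (-1) := mul_le_mul_of_nonneg_left (by omega) (by omega)
      linarith
    · subst hz
      have := two_zero _ le_rfl hm1 (by simpa using hN2)
      omega
  obtain ⟨j, hj⟩ := two_pos hm1pos hm1 (by omega) hN2
  have hu := three_u (j + 1)
  rw [← hj] at hu
  have hqc1 : q ≤ q * c1 := by
    have : q * 1 ≤ q * c1 := mul_le_mul_of_nonneg_left (by omega) (by omega)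
    linarith
  -- j + 1 ≤ s + 2
  have hjle : j + 1 ≤ s + 2 := by
    by_contra hcon
    have : (4 : ℤ) ^ (s + 3) ≤ 4 ^ (j + 1) := pow_le_pow_right₀ (by norm_num) (by omega)
    rw [← hq] at this
    omega
  have hjge : s + 2 ≤ j + 1 := by
    by_contra hcon
    have : (4 : ℤ) ^ (j + 1) ≤ 4 ^ (s + 1) := pow_le_pow_right₀ (by norm_num) (by omega)
    linarith
  have hj' : j + 1 = s + 2 := le_antisymm hjle hjge
  rw [hj'] at hu hj
  -- now m1 = u (s+2)
  have hc01 : c0 = 1 := by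
    by_contra hcon
    have hc00 : c0 ≤ 0 := by omega
    have := hFb2 hc00
    linarith
  subst hc01
  obtain ⟨-, m'', c'', hF'', hm'', hc''3, hcc1', hcc2'⟩ := F_succ _ hF'
  obtain ⟨hb'', hb'''⟩ := Dig_bound hF''.1
  unfold M
  rw [hj, ← hq, hm', hm'']
  have hgoal : 1 + 4 ^ (s + 1) * (-1 - c') ≤ m'' := by
    have hp1pos : (4 : ℤ) ≤ 4 ^ (s + 1) := by
      have : (1 : ℤ) ≤ 4 ^ s := one_le_pow₀ (by norm_num)
      rw [pow_succ]; omega
    rcases hc'3 with h | h | h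
    · subst h
      -- the delicate case
      have hG : ∃ d, G (s + 1) m'' c'' d := by
        obtain ⟨a, b, ha, hb, hab⟩ := Dig_split (s := s + 1) (t := 2) hℓ1
        refine ⟨b + 16 * c1 - 11, hF'', a, ha, ?_⟩
        have h1 : u (s + 2) = u (s + 1) + 4 ^ (s + 1) := u_succ_top (s + 1)
        have h2 : (4 : ℤ) ^ (s + 2) = 4 ^ (s + 1) * 4 := pow_succ _ _
        have h3 : q = 4 ^ (s + 1) * 16 := hp1.symm
        rw [hm', hm'', hj, h1, hab, h3, h2] at hc1
        linarith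
      obtain ⟨d, hG⟩ := hG
      have := G_pos s hG (by omega)
      linarith
    · subst h
      linarith
    · omega
  linarith

end Pool.Agent.H98.LvdP
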