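import Pool.Agent.H98.LvdP.Grow2

/-! An explicit multiplier bound for every odd integer. -/

namespace Pool.Agent.H98.LvdP

open Finset

lemma Lz_mem_add {n i : ℕ} {p q : ℤ} (hp : p ∈ Lz n) (hq : q ∈ Lz i) :
    p + 4 ^ n * q ∈ Lz (n + i) := by
  induction i generalizing q with
  | zero =>
    simp only [Lz, mem_singleton] at hq
    subst hq
    simpa using hp
  | succ i ih =>
    rw [← Nat.add_assoc]
    simp only [Lz, mem_union, mem_image] at hq ⊢
    rcases hq with hq | ⟨q', hq', rfl⟩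
    · exact Or.inl (ih hq)
    · exact Or.inr ⟨_, ih hq', by rw [pow_add]; ring⟩

/-- `N`-digit `0,1` pairs have distinct values of `a + k b` -/
def NoColl (k : ℤ) (N : ℕ) : Prop :=
  ∀ a ∈ Lz N, ∀ b ∈ Lz N, ∀ a' ∈ Lz N, ∀ b' ∈ Lz N, a + k * b = a' + k * b' → a = a' ∧ b = b'

lemma fib_bound {k : ℤ} (hk : 0 < k) {r N : ℕ} (hr : k ≤ 2 * 4 ^ r) (hrN : r ≤ N)
    (hinj : NoColl k N) (y : ℤ) : fib k N y ≤ 2 ^ r := by
  have hN : N - r + r = N := by omega
  have e : fib k N y = ∑ h ∈ Lz r, ∑ a ∈ Lz N, ∑ l ∈ Lz (N - r),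
      ind N (a + k * (l + 4 ^ (N - r) * h) - y) := by
    unfold fib
    have h1 : ∀ a ∈ Lz N, ∑ b ∈ Lz N, ind N (a + k * b - y) =
        ∑ h ∈ Lz r, ∑ l ∈ Lz (N - r), ind N (a + k * (l + 4 ^ (N - r) * h) - y) := by
      intro a _
      conv_lhs => rw [← hN]
      rw [Lz_sum_add, sum_comm, hN]
    rw [sum_congr rfl h1, sum_comm]
  rw [e]
  have hone : ∀ h ∈ Lz r, ∑ a ∈ Lz N, ∑ l ∈ Lz (N - r),
      ind N (a + k * (l + 4 ^ (N - r) * h) - y) ≤ 1 := by
    intro h hh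
    rw [← sum_product']
    unfold ind
    rw [sum_boole]
    have : ((Lz N ×ˢ Lz (N - r)).filter
        (fun p : ℤ × ℤ => (4 : ℤ) ^ N ∣ p.1 + k * (p.2 + 4 ^ (N - r) * h) - y)).card ≤ 1 := by
      rw [card_le_one]
      rintro ⟨a, l⟩ hal ⟨a', l'⟩ hal'
      simp only [mem_filter, mem_product] at hal hal'
      obtain ⟨⟨ha, hl⟩, hd⟩ := hal
      obtain ⟨⟨ha', hl'⟩, hd'⟩ := hal'
      have hdvd := dvd_sub hd hd'
      rw [show a + k * (l + 4 ^ (N - r) * h) - y - (a' + k * (l' + 4 ^ (N - r) * h) - y) =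
        (a - a') + k * (l - l') by ring] at hdvd
      have b1 := Lz_bound ha
      have b2 := Lz_bound ha'
      have b3 := Lz_bound hl
      have b4 := Lz_bound hl'
      have hpow : (4 : ℤ) ^ r * 4 ^ (N - r) = 4 ^ N := by rw [← pow_add]; congr 1; omega
      have hr1 : (1 : ℤ) ≤ 4 ^ r := one_le_pow₀ (by norm_num)
      have hNr1 : (1 : ℤ) ≤ 4 ^ (N - r) := one_le_pow₀ (by norm_num)
      have hkl : k * (3 * (l - l')) ≤ 2 * 4 ^ N - 2 * 4 ^ r := by
        have h1 : k * (3 * (l - l')) ≤ k * (4 ^ (N - r) - 1) :=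
          mul_le_mul_of_nonneg_left (by omega) hk.le
        have h2 : k * (4 ^ (N - r) - 1) ≤ (2 * 4 ^ r) * (4 ^ (N - r) - 1) :=
          mul_le_mul_of_nonneg_right hr (by omega)
        nlinarith
      have hkl' : -(2 * 4 ^ N - 2 * 4 ^ r) ≤ k * (3 * (l - l')) := by
        have h1 : k * (-(4 ^ (N - r) - 1)) ≤ k * (3 * (l - l')) :=
          mul_le_mul_of_nonneg_left (by omega) hk.le
        have h2 : k * (4 ^ (N - r) - 1) ≤ (2 * 4 ^ r) * (4 ^ (N - r) - 1) :=
          mul_le_mul_of_nonneg_right hr (by omega)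
        nlinarith
      have hz : (a - a') + k * (l - l') = 0 := by
        apply Int.eq_zero_of_abs_lt_dvd hdvd
        rw [abs_lt]
        constructor <;> nlinarith
      have := hinj a ha (l + 4 ^ (N - r) * h)
        (by have := Lz_mem_add hl hh; rwa [hN] at this) a' ha' (l' + 4 ^ (N - r) * h)
        (by have := Lz_mem_add hl' hh; rwa [hN] at this) (by linarith)
      ext
      · exact this.1
      · simpa using this.2
    exact_mod_cast this
  calc _ ≤ ∑ h ∈ Lz r, (1 : ℤ) := sum_le_sum hone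
    _ = 2 ^ r := by simp [Lz_card]

lemma fib_large {k : ℤ} (hk : Odd k) (n : ℕ) :
    ∃ y, (n : ℤ) + 1 ≤ fib k (n + padicValNat 2 n.factorial) y := by
  induction n with
  | zero =>
    refine ⟨0, ?_⟩
    simp [fib, Lz, ind]
  | succ n ih =>
    have hi : ¬ (2 : ℤ) ^ (padicValNat 2 (n + 1) + 1) ∣ ((n : ℤ) + 1) := by
      have := pow_succ_padicValNat_not_dvd (p := 2) (n := n + 1) (by omega)
      intro h
      apply this
      have : ((2 ^ (padicValNat 2 (n + 1) + 1) : ℕ) : ℤ) ∣ ((n + 1 : ℕ) : ℤ) := by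
        push_cast
        exact h
      exact_mod_cast this
    obtain ⟨y, hy⟩ := fib_grow hk hi ih
    refine ⟨y, ?_⟩
    have e : n + 1 + padicValNat 2 (n + 1).factorial =
        n + padicValNat 2 n.factorial + (padicValNat 2 (n + 1) + 1) := by
      rw [Nat.factorial_succ, padicValNat.mul (by omega) (Nat.factorial_ne_zero n)]
      omega
    rw [e]
    push_cast
    exact hy

lemma fib_mono_level {k : ℤ} {m : ℤ} {n n' : ℕ} (hn : n ≤ n') (h : ∃ y, m ≤ fib k n y) :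
    ∃ y, m ≤ fib k n' y := by
  induction hn with
  | refl => exact h
  | step _ ih => exact fib_up ih

lemma exists_coll {k : ℤ} (hk : Odd k) (hk0 : 0 < k) {r : ℕ} (hr : k ≤ 2 * 4 ^ r) :
    ¬ NoColl k (2 ^ (r + 1) - 1) := by
  intro hinj
  have hr2 : r < 2 ^ r := Nat.lt_two_pow_self
  have hv : padicValNat 2 (2 ^ r).factorial ≤ 2 ^ r - 1 := by
    have := sub_one_mul_padicValNat_factorial (p := 2) (2 ^ r)
    have h1 : 0 < ((2 : ℕ).digits (2 ^ r)).sum := by
      by_contra hcon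
      have h0 : ((2 : ℕ).digits (2 ^ r)).sum = 0 := by omega
      have hmod := Nat.modEq_digits_sum (b := 2) (b' := 2)
      have hz : ∀ x ∈ (2 : ℕ).digits (2 ^ r), x = 0 := List.sum_eq_zero_iff.1 h0
      have hne : (2 : ℕ).digits (2 ^ r) ≠ [] := Nat.digits_ne_nil_iff_ne_zero.2 (by positivity)
      have hlast := Nat.getLast_digit_ne_zero 2 (m := 2 ^ r) (by positivity)
      exact hlast (hz _ (List.getLast_mem hne))
    omega
  have hlvl : 2 ^ r + padicValNat 2 (2 ^ r).factorial ≤ 2 ^ (r + 1) - 1 := by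
    rw [pow_succ]; omega
  obtain ⟨y, hy⟩ := fib_mono_level hlvl (fib_large hk (2 ^ r))
  have hb := fib_bound hk0 hr (by rw [pow_succ]; omega) hinj y
  push_cast at hy
  linarith

/-- a multiplier from a collision -/
lemma multiplier_of_coll {k : ℤ} {N : ℕ} (h : ¬ NoColl k N) :
    ∃ m, IsMultiplier k m ∧ 3 * m ≤ 4 ^ N - 1 := by
  unfold NoColl at h
  push Not at h
  obtain ⟨a, ha, b, hb, a', ha', b', hb', heq, hne⟩ := h
  have hbb : b ≠ b' := by
    rintro rfl
    exact hne (by linarith) rfl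
  have b3 := Lz_bound hb
  have b4 := Lz_bound hb'
  rcases lt_or_gt_of_ne hbb with hlt | hgt
  · refine ⟨b' - b, ⟨by omega, (mem_L_iff _).2 ⟨N, Dig_of_Lz_sub hb' hb⟩, ?_⟩, by omega⟩
    rw [show k * (b' - b) = a - a' by linarith]
    exact (mem_L_iff _).2 ⟨N, Dig_of_Lz_sub ha ha'⟩
  · refine ⟨b - b', ⟨by omega, (mem_L_iff _).2 ⟨N, Dig_of_Lz_sub hb hb'⟩, ?_⟩, by omega⟩
    rw [show k * (b - b') = a' - a by linarith]
    exact (mem_L_iff _).2 ⟨N, Dig_of_Lz_sub ha' ha⟩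

lemma isMultiplier_neg {k m : ℤ} (h : IsMultiplier (-k) m) : IsMultiplier k m := by
  refine ⟨h.1, h.2.1, ?_⟩
  have := L_neg h.2.2
  rwa [neg_mul, neg_neg] at this

theorem exists_multiplier {k : ℤ} (hk : Odd k) {r : ℕ} (hr : |k| ≤ 2 * 4 ^ r) :
    ∃ m, IsMultiplier k m ∧ 3 * m ≤ 4 ^ (2 ^ (r + 1) - 1) - 1 := by
  rcases lt_trichotomy k 0 with h | h | h
  · have hk' : Odd (-k) := hk.neg
    obtain ⟨m, hm, hb⟩ := multiplier_of_coll
      (exists_coll hk' (by omega) (r := r) (by rwa [abs_of_neg h] at hr))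
    exact ⟨m, isMultiplier_neg hm, hb⟩
  · subst h
    simp at hk
  · exact multiplier_of_coll (exists_coll hk h (r := r) (by rwa [abs_of_pos h] at hr))

end Pool.Agent.H98.LvdP
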